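import Pool.Agent.W978.QN.Stm

/-! The determinants of a smooth trilinear form are not identically zero. -/

namespace Pool.Agent.W585.QN

open Pool.Agent.W978.QN

theorem mnr_zero (A : Matrix (Fin 3) (Fin 3) ℂ) (h : A.adjugate = 0) (k k' j j' : Fin 3) :
    mnr (fun x y => A x y) k k' j j' = 0 := by
  rw [Matrix.adjugate_fin_three] at h
  have h00 := congrFun (congrFun h 0) 0
  have h01 := congrFun (congrFun h 0) 1
  have h02 := congrFun (congrFun h 0) 2
  have h10 := congrFun (congrFun h 1) 0
  have h11 := congrFun (congrFun h 1) 1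
  have h12 := congrFun (congrFun h 1) 2
  have h20 := congrFun (congrFun h 2) 0
  have h21 := congrFun (congrFun h 2) 1
  have h22 := congrFun (congrFun h 2) 2
  simp only [Matrix.of_apply, Matrix.cons_val_zero, Matrix.cons_val_one, Matrix.cons_val,
    Matrix.zero_apply] at h00 h01 h02 h10 h11 h12 h20 h21 h22
  clear h
  fin_cases k <;> fin_cases k' <;> fin_cases j <;> fin_cases j' <;>
    simp only [mnr, Fin.zero_eta, Fin.mk_one, Fin.reduceFinMk] <;>
    first
    | ring1
    | linear_combination h00
    | linear_combination h01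
    | linear_combination h02
    | linear_combination h10
    | linear_combination h11
    | linear_combination h12
    | linear_combination h20
    | linear_combination h21
    | linear_combination h22
    | linear_combination -h00
    | linear_combination -h01
    | linear_combination -h02
    | linear_combination -h10
    | linear_combination -h11
    | linear_combination -h12
    | linear_combination -h20
    | linear_combination -h21
    | linear_combination -h22

theorem trace_zero (N V : Matrix (Fin 3) (Fin 3) ℂ) (h0 : V.det = 0) (h1 : (N + V).det = 0)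
    (h2 : (N - V).det = 0) : ∑ w, ∑ u, N.adjugate w u * V u w = 0 := by
  rw [Matrix.det_fin_three] at h0 h1 h2
  rw [Matrix.adjugate_fin_three]
  simp only [Fin.sum_univ_three, Matrix.of_apply, Matrix.cons_val_zero, Matrix.cons_val_one,
    Matrix.cons_val]
  simp only [Matrix.add_apply, Matrix.sub_apply] at h1 h2
  linear_combination (1 / 2) * h1 - (1 / 2) * h2 - h0

/-- the bilinear form with the first argument fixed -/
def NM (b : Fin 3 → Fin 3 → Fin 3 → ℤ) (p : Fin 3 → ℂ) : Matrix (Fin 3) (Fin 3) ℂ :=
  Matrix.of fun u w => ∑ m, (b m u w : ℂ) * p m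

theorem core (b : Fin 3 → Fin 3 → Fin 3 → ℤ) (hrk : Rk2 b) (hdet : ∀ p, (NM b p).det = 0) :
    ∃ p t s : Fin 3 → ℂ, p ≠ 0 ∧ t ≠ 0 ∧ s ≠ 0 ∧
      (∀ v, cf (fun i j k => (b i j k : ℂ)) v t s = 0) ∧
      (∀ v, cf (fun i j k => (b i j k : ℂ)) p v s = 0) ∧
      (∀ v, cf (fun i j k => (b i j k : ℂ)) p t v = 0) := by
  obtain ⟨p, hp⟩ : ∃ p : Fin 3 → ℂ, p ≠ 0 :=
    ⟨fun _ => 1, fun h => one_ne_zero (α := ℂ) (congrFun h 0)⟩
  obtain ⟨k, k', j, j', hk⟩ := hrk p hp
  obtain ⟨A, hA⟩ : ∃ A, A = (NM b p).adjugate := ⟨_, rfl⟩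
  have hA0 : A ≠ 0 := by
    intro h
    have h1 := mnr_zero (NM b p) (by rw [← hA, h]) j j' k k'
    apply hk
    simp only [mnr, NM, Matrix.of_apply] at h1
    simp only [mnr, mp]
    linear_combination h1
  obtain ⟨i0, j0, hij⟩ : ∃ i0 j0, A i0 j0 ≠ 0 := by
    by_contra hcon
    push Not at hcon
    exact hA0 (by ext i j; exact hcon i j)
  have hadj : A.adjugate = 0 := by
    rw [hA, Matrix.adjugate_adjugate _ (by simp), hdet p]
    simp
  have hNA : NM b p * A = 0 := by rw [hA, Matrix.mul_adjugate, hdet p, zero_smul]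
  have hAN : A * NM b p = 0 := by rw [hA, Matrix.adjugate_mul, hdet p, zero_smul]
  have hcf : ∀ x y z : Fin 3 → ℂ, cf (fun i j k => (b i j k : ℂ)) x y z =
      ∑ u, ∑ w, NM b x u w * (y u * z w) := by
    intro x y z
    simp only [cf, NM, Matrix.of_apply, Fin.sum_univ_three]
    ring
  refine ⟨p, fun u => A i0 u, fun w => A w j0, hp, fun h => hij (congrFun h j0),
    fun h => hij (congrFun h i0), fun v => ?_, fun v => ?_, fun v => ?_⟩
  · have hlin1 : NM b (p + v) = NM b p + NM b v := by
      ext u w
      simp only [NM, Matrix.of_apply, Matrix.add_apply, Pi.add_apply, mul_add,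
        Finset.sum_add_distrib]
    have hlin2 : NM b (p - v) = NM b p - NM b v := by
      ext u w
      simp only [NM, Matrix.of_apply, Matrix.sub_apply, Pi.sub_apply, mul_sub,
        Finset.sum_sub_distrib]
    have htr := trace_zero (NM b p) (NM b v) (hdet v) (by rw [← hlin1]; exact hdet _)
      (by rw [← hlin2]; exact hdet _)
    rw [← hA] at htr
    rw [hcf]
    have hm : ∀ w u, A i0 u * A w j0 = A i0 j0 * A w u := by
      intro w u
      have := mnr_zero A hadj i0 w j0 u
      simp only [mnr] at this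
      linear_combination -this
    have h3 : ∑ u, ∑ w, NM b v u w * (A i0 u * A w j0) =
        A i0 j0 * ∑ w, ∑ u, A w u * NM b v u w := by
      rw [Finset.mul_sum, Finset.sum_comm]
      refine Finset.sum_congr rfl fun w _ => ?_
      rw [Finset.mul_sum]
      refine Finset.sum_congr rfl fun u _ => ?_
      rw [hm w u]; ring
    rw [h3, htr, mul_zero]
  · rw [hcf]
    refine Finset.sum_eq_zero fun u _ => ?_
    have h4 : ∑ w, NM b p u w * A w j0 = 0 := by
      have := congrFun (congrFun hNA u) j0
      rwa [Matrix.mul_apply] at this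
    have h5 : ∑ w, NM b p u w * (v u * A w j0) = v u * ∑ w, NM b p u w * A w j0 := by
      rw [Finset.mul_sum]
      exact Finset.sum_congr rfl fun w _ => by ring
    rw [h5, h4, mul_zero]
  · rw [hcf, Finset.sum_comm]
    refine Finset.sum_eq_zero fun w _ => ?_
    have h4 : ∑ u, A i0 u * NM b p u w = 0 := by
      have := congrFun (congrFun hAN i0) w
      rwa [Matrix.mul_apply] at this
    have h5 : ∑ u, NM b p u w * (A i0 u * v w) = v w * ∑ u, A i0 u * NM b p u w := by
      rw [Finset.mul_sum]
      exact Finset.sum_congr rfl fun w _ => by ring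
    rw [h5, h4, mul_zero]

theorem perm_exists : ∀ k l : Fin 3, k ≠ l → ∃ σ : Equiv.Perm (Fin 3), σ 1 = k ∧ σ 2 = l := by
  decide

theorem main (hBR : S_BR) (hRK : S_RK) : S_DET := by
  intro a ha k l hkl
  by_contra hcon
  push Not at hcon
  obtain ⟨σ, rfl, rfl⟩ := perm_exists k l hkl
  have h01 : σ 0 ≠ σ 1 := fun h => absurd (σ.injective h) (by decide)
  have h02 : σ 0 ≠ σ 2 := fun h => absurd (σ.injective h) (by decide)
  have h12 : σ 1 ≠ σ 2 := fun h => absurd (σ.injective h) (by decide)
  have hmt : ∀ p : Fin 3 → ℂ, (NM (cu a σ) p).det = 0 := by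
    intro p
    have h1 := hcon (fun _ => p)
    have h2 : mt a (σ 1) (σ 2) (fun _ => p) = NM (cu a σ) p := by
      ext u w
      change tf a (Function.update (Function.update (fun _ => p) (σ 1) (bv u)) (σ 2) (bv w)) =
        ∑ m, (cu a σ m u w : ℂ) * p m
      rw [hBR ℂ a σ, Function.update_self, Function.update_of_ne h12, Function.update_self,
        Function.update_of_ne h02, Function.update_of_ne h01]
      simp only [cf, bv, Pi.single_apply]
      simp
    rwa [h2] at h1
  obtain ⟨p, t, s, hp, ht, hs, hv1, hv2, hv3⟩ := core (cu a σ) (hRK a ha σ) hmt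
  obtain ⟨P, hP⟩ : ∃ P : Fin 3 → Fin 3 → ℂ, P = fun m => (![p, t, s] : Fin 3 → Fin 3 → ℂ) (σ.symm m) :=
    ⟨_, rfl⟩
  have hP0 : P (σ 0) = p := by rw [hP]; simp
  have hP1 : P (σ 1) = t := by rw [hP]; simp
  have hP2 : P (σ 2) = s := by rw [hP]; simp
  obtain ⟨i, v, hiv⟩ := ha P (by
    intro m
    obtain ⟨m, rfl⟩ := σ.surjective m
    fin_cases m
    · change P (σ 0) ≠ 0
      rw [hP0]; exact hp
    · change P (σ 1) ≠ 0
      rw [hP1]; exact ht
    · change P (σ 2) ≠ 0
      rw [hP2]; exact hs) (by rw [hBR ℂ a σ, hP0, hP1, hP2]; exact hv1 p)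
  apply hiv
  obtain ⟨m, rfl⟩ := σ.surjective i
  rw [hBR ℂ a σ]
  fin_cases m
  · change cf _ (Function.update P (σ 0) v (σ 0)) (Function.update P (σ 0) v (σ 1))
      (Function.update P (σ 0) v (σ 2)) = 0
    rw [Function.update_self, Function.update_of_ne h01.symm, Function.update_of_ne h02.symm,
      hP1, hP2]
    exact hv1 v
  · change cf _ (Function.update P (σ 1) v (σ 0)) (Function.update P (σ 1) v (σ 1))
      (Function.update P (σ 1) v (σ 2)) = 0
    rw [Function.update_self, Function.update_of_ne h01, Function.update_of_ne h12.symm,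
      hP0, hP2]
    exact hv2 v
  · change cf _ (Function.update P (σ 2) v (σ 0)) (Function.update P (σ 2) v (σ 1))
      (Function.update P (σ 2) v (σ 2)) = 0
    rw [Function.update_self, Function.update_of_ne h02, Function.update_of_ne h12,
      hP0, hP1]
    exact hv3 v

end Pool.Agent.W585.QN
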